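import Mathlib

set_option autoImplicit false

namespace Pool.Agent.Results.MP_215b2d_al.OddWord

open Matrix

section alg
variable {F : Type} [Field F]

def phi (A B : Matrix (Fin 2) (Fin 2) F) (v : F × F × F × F) : Matrix (Fin 2) (Fin 2) F :=
  v.1 • (1 : Matrix (Fin 2) (Fin 2) F) + v.2.1 • A + v.2.2.1 • B + v.2.2.2 • (A * B)

def rx (s u : F) (v : F × F × F × F) : F × F × F × F :=
  (-v.2.1 + v.2.2.1 * (u - s * s) - v.2.2.2 * s, v.1 + v.2.1 * s + v.2.2.1 * s + v.2.2.2 * u,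
    v.2.2.1 * s + v.2.2.2, -v.2.2.1)

def ry (s : F) (v : F × F × F × F) : F × F × F × F :=
  (-v.2.2.1, -v.2.2.2, v.1 + v.2.2.1 * s, v.2.1 + v.2.2.2 * s)

theorem sq_eq (A : Matrix (Fin 2) (Fin 2) F) (h : A.det = 1) :
    A * A = A.trace • A - 1 := by
  rw [det_fin_two] at h
  ext i j
  fin_cases i <;> fin_cases j <;> simp [mul_apply, Fin.sum_univ_two, trace_fin_two]
  · linear_combination -h
  · ring
  · ring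
  · linear_combination -h

theorem swap_eq (A B : Matrix (Fin 2) (Fin 2) F) :
    B * A = -(A * B) + B.trace • A + A.trace • B
      + ((A * B).trace - A.trace * B.trace) • (1 : Matrix (Fin 2) (Fin 2) F) := by
  ext i j
  fin_cases i <;> fin_cases j <;> simp [mul_apply, Fin.sum_univ_two, trace_fin_two] <;> ring

theorem phi_x (A B : Matrix (Fin 2) (Fin 2) F) (hA : A.det = 1) (ht : B.trace = A.trace)
    (v : F × F × F × F) : phi A B v * A = phi A B (rx A.trace (A * B).trace v) := by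
  have h1 := sq_eq A hA
  have h2 := swap_eq A B
  rw [ht] at h2
  have h3 : A * B * A = B - A.trace • (1 : Matrix (Fin 2) (Fin 2) F) + (A * B).trace • A := by
    rw [mul_assoc, h2]
    simp only [mul_add, mul_neg, Matrix.mul_smul, mul_one, ← mul_assoc, h1, sub_mul, one_mul,
      Matrix.smul_mul]
    module
  simp only [phi, rx, add_mul, Matrix.smul_mul, one_mul, h1, h3]
  rw [h2]
  module

theorem phi_y (A B : Matrix (Fin 2) (Fin 2) F) (hB : B.det = 1) (ht : B.trace = A.trace)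
    (v : F × F × F × F) : phi A B v * B = phi A B (ry A.trace v) := by
  have h1 := sq_eq B hB
  rw [ht] at h1
  have h3 : A * B * B = A.trace • (A * B) - A := by
    rw [mul_assoc, h1, mul_sub, Matrix.mul_smul, mul_one]
  simp only [phi, ry, add_mul, Matrix.smul_mul, one_mul, h1, h3]
  module

theorem trace_phi (A B : Matrix (Fin 2) (Fin 2) F) (v : F × F × F × F) :
    (phi A B v).trace = v.1 * 2 + v.2.1 * A.trace + v.2.2.1 * B.trace + v.2.2.2 * (A * B).trace := by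
  simp [phi, trace_add, trace_smul]

theorem e0 (s u : F) : rx s u (0, 1, 0, 0) = ((-1), (1)*s^1, 0, 0) := by
  simp only [rx, Prod.mk.injEq]
  refine ⟨?_, ?_, ?_, ?_⟩ <;> ring

theorem e1 (s u : F) : rx s u ((-1), (1)*s^1, 0, 0) = ((-1)*s^1, (1)*s^2+(-1), 0, 0) := by
  simp only [rx, Prod.mk.injEq]
  refine ⟨?_, ?_, ?_, ?_⟩ <;> ring

theorem e2 (s u : F) : rx s u ((-1)*s^1, (1)*s^2+(-1), 0, 0) = ((-1)*s^2+(1), (1)*s^3+(-2)*s^1, 0, 0) := by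
  simp only [rx, Prod.mk.injEq]
  refine ⟨?_, ?_, ?_, ?_⟩ <;> ring

theorem e3 (s u : F) : rx s u ((-1)*s^2+(1), (1)*s^3+(-2)*s^1, 0, 0) = ((-1)*s^3+(2)*s^1, (1)*s^4+(-3)*s^2+(1), 0, 0) := by
  simp only [rx, Prod.mk.injEq]
  refine ⟨?_, ?_, ?_, ?_⟩ <;> ring

theorem e4 (s u : F) : rx s u ((-1)*s^3+(2)*s^1, (1)*s^4+(-3)*s^2+(1), 0, 0) = ((-1)*s^4+(3)*s^2+(-1), (1)*s^5+(-4)*s^3+(3)*s^1, 0, 0) := by
  simp only [rx, Prod.mk.injEq]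
  refine ⟨?_, ?_, ?_, ?_⟩ <;> ring

theorem e5 (s u : F) : ry s ((-1)*s^4+(3)*s^2+(-1), (1)*s^5+(-4)*s^3+(3)*s^1, 0, 0) = (0, 0, (-1)*s^4+(3)*s^2+(-1), (1)*s^5+(-4)*s^3+(3)*s^1) := by
  simp only [ry, Prod.mk.injEq]
  refine ⟨?_, ?_, ?_, ?_⟩ <;> ring

theorem e6 (s u : F) : ry s (0, 0, (-1)*s^4+(3)*s^2+(-1), (1)*s^5+(-4)*s^3+(3)*s^1) = ((1)*s^4+(-3)*s^2+(1), (-1)*s^5+(4)*s^3+(-3)*s^1, (-1)*s^5+(3)*s^3+(-1)*s^1, (1)*s^6+(-4)*s^4+(3)*s^2) := by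
  simp only [ry, Prod.mk.injEq]
  refine ⟨?_, ?_, ?_, ?_⟩ <;> ring

theorem e7 (s u : F) : rx s u ((1)*s^4+(-3)*s^2+(1), (-1)*s^5+(4)*s^3+(-3)*s^1, (-1)*s^5+(3)*s^3+(-1)*s^1, (1)*s^6+(-4)*s^4+(3)*s^2) = ((-1)*s^5*u^1+(2)*s^5+(3)*s^3*u^1+(-6)*s^3+(-1)*s^1*u^1+(3)*s^1, (1)*s^6*u^1+(-2)*s^6+(-4)*s^4*u^1+(8)*s^4+(3)*s^2*u^1+(-7)*s^2+(1), (-1)*s^4+(2)*s^2, (1)*s^5+(-3)*s^3+(1)*s^1) := by
  simp only [rx, Prod.mk.injEq]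
  refine ⟨?_, ?_, ?_, ?_⟩ <;> ring

theorem e8 (s u : F) : rx s u ((-1)*s^5*u^1+(2)*s^5+(3)*s^3*u^1+(-6)*s^3+(-1)*s^1*u^1+(3)*s^1, (1)*s^6*u^1+(-2)*s^6+(-4)*s^4*u^1+(8)*s^4+(3)*s^2*u^1+(-7)*s^2+(1), (-1)*s^4+(2)*s^2, (1)*s^5+(-3)*s^3+(1)*s^1) = ((-1)*s^6*u^1+(2)*s^6+(3)*s^4*u^1+(-7)*s^4+(-1)*s^2*u^1+(6)*s^2+(-1), (1)*s^7*u^1+(-2)*s^7+(-4)*s^5*u^1+(9)*s^5+(3)*s^3*u^1+(-11)*s^3+(4)*s^1, (-1)*s^3+(1)*s^1, (1)*s^4+(-2)*s^2) := by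
  simp only [rx, Prod.mk.injEq]
  refine ⟨?_, ?_, ?_, ?_⟩ <;> ring

theorem e9 (s u : F) : ry s ((-1)*s^6*u^1+(2)*s^6+(3)*s^4*u^1+(-7)*s^4+(-1)*s^2*u^1+(6)*s^2+(-1), (1)*s^7*u^1+(-2)*s^7+(-4)*s^5*u^1+(9)*s^5+(3)*s^3*u^1+(-11)*s^3+(4)*s^1, (-1)*s^3+(1)*s^1, (1)*s^4+(-2)*s^2) = ((1)*s^3+(-1)*s^1, (-1)*s^4+(2)*s^2, (-1)*s^6*u^1+(2)*s^6+(3)*s^4*u^1+(-8)*s^4+(-1)*s^2*u^1+(7)*s^2+(-1), (1)*s^7*u^1+(-2)*s^7+(-4)*s^5*u^1+(10)*s^5+(3)*s^3*u^1+(-13)*s^3+(4)*s^1) := by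
  simp only [ry, Prod.mk.injEq]
  refine ⟨?_, ?_, ?_, ?_⟩ <;> ring

theorem e10 (s u : F) : ry s ((1)*s^3+(-1)*s^1, (-1)*s^4+(2)*s^2, (-1)*s^6*u^1+(2)*s^6+(3)*s^4*u^1+(-8)*s^4+(-1)*s^2*u^1+(7)*s^2+(-1), (1)*s^7*u^1+(-2)*s^7+(-4)*s^5*u^1+(10)*s^5+(3)*s^3*u^1+(-13)*s^3+(4)*s^1) = ((1)*s^6*u^1+(-2)*s^6+(-3)*s^4*u^1+(8)*s^4+(1)*s^2*u^1+(-7)*s^2+(1), (-1)*s^7*u^1+(2)*s^7+(4)*s^5*u^1+(-10)*s^5+(-3)*s^3*u^1+(13)*s^3+(-4)*s^1, (-1)*s^7*u^1+(2)*s^7+(3)*s^5*u^1+(-8)*s^5+(-1)*s^3*u^1+(8)*s^3+(-2)*s^1, (1)*s^8*u^1+(-2)*s^8+(-4)*s^6*u^1+(10)*s^6+(3)*s^4*u^1+(-14)*s^4+(6)*s^2) := by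
  simp only [ry, Prod.mk.injEq]
  refine ⟨?_, ?_, ?_, ?_⟩ <;> ring

theorem e11 (s u : F) : ry s ((1)*s^6*u^1+(-2)*s^6+(-3)*s^4*u^1+(8)*s^4+(1)*s^2*u^1+(-7)*s^2+(1), (-1)*s^7*u^1+(2)*s^7+(4)*s^5*u^1+(-10)*s^5+(-3)*s^3*u^1+(13)*s^3+(-4)*s^1, (-1)*s^7*u^1+(2)*s^7+(3)*s^5*u^1+(-8)*s^5+(-1)*s^3*u^1+(8)*s^3+(-2)*s^1, (1)*s^8*u^1+(-2)*s^8+(-4)*s^6*u^1+(10)*s^6+(3)*s^4*u^1+(-14)*s^4+(6)*s^2) = ((1)*s^7*u^1+(-2)*s^7+(-3)*s^5*u^1+(8)*s^5+(1)*s^3*u^1+(-8)*s^3+(2)*s^1, (-1)*s^8*u^1+(2)*s^8+(4)*s^6*u^1+(-10)*s^6+(-3)*s^4*u^1+(14)*s^4+(-6)*s^2, (-1)*s^8*u^1+(2)*s^8+(4)*s^6*u^1+(-10)*s^6+(-4)*s^4*u^1+(16)*s^4+(1)*s^2*u^1+(-9)*s^2+(1), (1)*s^9*u^1+(-2)*s^9+(-5)*s^7*u^1+(12)*s^7+(7)*s^5*u^1+(-24)*s^5+(-3)*s^3*u^1+(19)*s^3+(-4)*s^1) := by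
  simp only [ry, Prod.mk.injEq]
  refine ⟨?_, ?_, ?_, ?_⟩ <;> ring

theorem e12 (s u : F) : rx s u ((1)*s^7*u^1+(-2)*s^7+(-3)*s^5*u^1+(8)*s^5+(1)*s^3*u^1+(-8)*s^3+(2)*s^1, (-1)*s^8*u^1+(2)*s^8+(4)*s^6*u^1+(-10)*s^6+(-3)*s^4*u^1+(14)*s^4+(-6)*s^2, (-1)*s^8*u^1+(2)*s^8+(4)*s^6*u^1+(-10)*s^6+(-4)*s^4*u^1+(16)*s^4+(1)*s^2*u^1+(-9)*s^2+(1), (1)*s^9*u^1+(-2)*s^9+(-5)*s^7*u^1+(12)*s^7+(7)*s^5*u^1+(-24)*s^5+(-3)*s^3*u^1+(19)*s^3+(-4)*s^1) = ((-1)*s^8*u^2+(4)*s^8*u^1+(-4)*s^8+(4)*s^6*u^2+(-17)*s^6*u^1+(18)*s^6+(-4)*s^4*u^2+(21)*s^4*u^1+(-24)*s^4+(1)*s^2*u^2+(-9)*s^2*u^1+(9)*s^2+(1)*u^1, (1)*s^9*u^2+(-4)*s^9*u^1+(4)*s^9+(-5)*s^7*u^2+(21)*s^7*u^1+(-22)*s^7+(7)*s^5*u^2+(-34)*s^5*u^1+(38)*s^5+(-3)*s^3*u^2+(21)*s^3*u^1+(-23)*s^3+(-4)*s^1*u^1+(3)*s^1, (-1)*s^7*u^1+(2)*s^7+(3)*s^5*u^1+(-8)*s^5+(-2)*s^3*u^1+(10)*s^3+(-3)*s^1, (1)*s^8*u^1+(-2)*s^8+(-4)*s^6*u^1+(10)*s^6+(4)*s^4*u^1+(-16)*s^4+(-1)*s^2*u^1+(9)*s^2+(-1))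 := by
  simp only [rx, Prod.mk.injEq]
  refine ⟨?_, ?_, ?_, ?_⟩ <;> ring

theorem e13 (s u : F) : ry s ((-1)*s^8*u^2+(4)*s^8*u^1+(-4)*s^8+(4)*s^6*u^2+(-17)*s^6*u^1+(18)*s^6+(-4)*s^4*u^2+(21)*s^4*u^1+(-24)*s^4+(1)*s^2*u^2+(-9)*s^2*u^1+(9)*s^2+(1)*u^1, (1)*s^9*u^2+(-4)*s^9*u^1+(4)*s^9+(-5)*s^7*u^2+(21)*s^7*u^1+(-22)*s^7+(7)*s^5*u^2+(-34)*s^5*u^1+(38)*s^5+(-3)*s^3*u^2+(21)*s^3*u^1+(-23)*s^3+(-4)*s^1*u^1+(3)*s^1, (-1)*s^7*u^1+(2)*s^7+(3)*s^5*u^1+(-8)*s^5+(-2)*s^3*u^1+(10)*s^3+(-3)*s^1, (1)*s^8*u^1+(-2)*s^8+(-4)*s^6*u^1+(10)*s^6+(4)*s^4*u^1+(-16)*s^4+(-1)*s^2*u^1+(9)*s^2+(-1)) = ((1)*s^7*u^1+(-2)*s^7+(-3)*s^5*u^1+(8)*s^5+(2)*s^3*u^1+(-10)*s^3+(3)*s^1, (-1)*s^8*u^1+(2)*s^8+(4)*s^6*u^1+(-10)*s^6+(-4)*s^4*u^1+(16)*s^4+(1)*s^2*u^1+(-9)*s^2+(1), (-1)*s^8*u^2+(3)*s^8*u^1+(-2)*s^8+(4)*s^6*u^2+(-14)*s^6*u^1+(10)*s^6+(-4)*s^4*u^2+(19)*s^4*u^1+(-14)*s^4+(1)*s^2*u^2+(-9)*s^2*u^1+(6)*s^2+(1)*u^1,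 (1)*s^9*u^2+(-3)*s^9*u^1+(2)*s^9+(-5)*s^7*u^2+(17)*s^7*u^1+(-12)*s^7+(7)*s^5*u^2+(-30)*s^5*u^1+(22)*s^5+(-3)*s^3*u^2+(20)*s^3*u^1+(-14)*s^3+(-4)*s^1*u^1+(2)*s^1) := by
  simp only [ry, Prod.mk.injEq]
  refine ⟨?_, ?_, ?_, ?_⟩ <;> ring

theorem trace_word (h2 : (2 : F) = 0) (A B : Matrix (Fin 2) (Fin 2) F) (hA : A.det = 1)
    (hB : B.det = 1) (ht : B.trace = A.trace) :
    ∃ g : F, (A * A * A * A * A * A * B * B * A * A * B * B * B * A * B).trace = g ^ 3 + g := by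
  have h0 : A = phi A B (0, 1, 0, 0) := by simp [phi]
  have e : A * A * A * A * A * A * B * B * A * A * B * B * B * A * B
      = phi A B (0, 1, 0, 0) * A * A * A * A * A * B * B * A * A * B * B * B * A * B := by
    rw [← h0]
  rw [e]
  simp only [phi_x A B hA ht, phi_y A B hB ht]
  rw [trace_phi, ht]
  generalize A.trace = s
  generalize (A * B).trace = u
  refine ⟨(s ^ 3 + s) * u + s, ?_⟩
  rw [e0 s u, e1 s u, e2 s u, e3 s u, e4 s u, e5 s u, e6 s u, e7 s u, e8 s u, e9 s u, e10 s u, e11 s u, e12 s u, e13 s u]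
  simp only
  linear_combination (-2*s^9*u^2 +2*s^9*u -4*s^7*u^3 +9*s^7*u^2 -10*s^7*u -2*s^7 +2*s^5*u^3
    -20*s^5*u^2 +14*s^5*u +9*s^5 -2*s^3*u^3 +9*s^3*u^2 -11*s^3*u -12*s^3 -2*s*u^2 +s*u +3*s) * h2

theorem no_root [Finite F] (n : ℕ) (hn : ¬ 3 ∣ n) (hc : Nat.card F = 2 ^ n) (h2 : (2 : F) = 0)
    (g : F) : g ^ 3 + g ≠ 1 := by
  intro h
  have hg : g ≠ 0 := by
    rintro rfl
    simp at h
  have h7 : g ^ 7 = 1 := by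
    linear_combination (g ^ 4 - g ^ 2 + g + 1) * h - g ^ 2 * h2
  let _ := Fintype.ofFinite F
  have hq : g ^ (2 ^ n - 1) = 1 := by
    have := FiniteField.pow_card_sub_one_eq_one g hg
    rwa [← Nat.card_eq_fintype_card, hc] at this
  have hco : Nat.gcd 7 (2 ^ n - 1) = 1 := by
    apply (Nat.Prime.coprime_iff_not_dvd (by norm_num)).2
    intro hd
    have h1 : 1 ≤ 2 ^ n := Nat.one_le_two_pow
    have hm : 2 ^ n % 7 = 1 := by omega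
    have hr : n % 3 = 1 ∨ n % 3 = 2 := by omega
    have e : 2 ^ n = 8 ^ (n / 3) * 2 ^ (n % 3) := by
      rw [show (8 : ℕ) = 2 ^ 3 by norm_num, ← pow_mul, ← pow_add]
      congr 1
      omega
    have e8 : 8 ^ (n / 3) % 7 = 1 := by
      rw [Nat.pow_mod]; simp
    rw [e, Nat.mul_mod, e8] at hm
    rcases hr with hr | hr <;> rw [hr] at hm <;> norm_num at hm
  have h1 : g = 1 := by
    have := pow_gcd_eq_one.2 ⟨h7, hq⟩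
    rwa [hco, pow_one] at this
  rw [h1] at h
  have : (1 : F) = 0 := by linear_combination h
  exact one_ne_zero this

end alg

/-- The word x^6 y x^(-2) y^(-1) x^2 y x^(-3) y^(-1) x y x^(-1) y^(-1), of length 21. -/
def w : FreeGroup (Fin 2) :=
  FreeGroup.mk [(0, true), (0, true), (0, true), (0, true), (0, true), (0, true),
    (1, true), (0, false), (0, false), (1, false), (0, true), (0, true),
    (1, true), (0, false), (0, false), (0, false), (1, false), (0, true),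
    (1, true), (0, false), (1, false)]

theorem lift_w {G : Type} [Group G] (a b : G) :
    FreeGroup.lift ![a, b] w =
      a * a * a * a * a * a * (b * a⁻¹ * b⁻¹) * (b * a⁻¹ * b⁻¹) * a * a * (b * a⁻¹ * b⁻¹)
        * (b * a⁻¹ * b⁻¹) * (b * a⁻¹ * b⁻¹) * a * (b * a⁻¹ * b⁻¹) := by
  simp [w, FreeGroup.lift_mk, mul_assoc]

theorem norm_w : FreeGroup.norm w = 21 := by decide

theorem not_pow : ¬ ∃ (v : FreeGroup (Fin 2)) (k : ℕ), 2 ≤ k ∧ w = v ^ k := by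
  rintro ⟨v, k, hk, h⟩
  have h1 := congrArg (FreeGroup.lift ![Multiplicative.ofAdd (1 : ℤ), 1]) h
  rw [lift_w, map_pow] at h1
  have h2 := congrArg Multiplicative.toAdd h1
  simp at h2
  have h3 : (k : ℤ) ∣ 3 := ⟨_, by rw [← h2]⟩
  have h4 : k ∣ 3 := by exact_mod_cast h3
  have h5 : k = 3 := by
    have := Nat.le_of_dvd (by norm_num) h4
    interval_cases k
    · norm_num at h4
    · rfl
  subst h5
  have h6 := congrArg (FreeGroup.lift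
    ![(Equiv.swap 0 1 * (Equiv.swap 2 4 * Equiv.swap 2 3) : Equiv.Perm (Fin 5)),
      Equiv.swap 0 2 * Equiv.swap 1 3]) h
  rw [lift_w, map_pow] at h6
  revert h6
  generalize FreeGroup.lift
    ![(Equiv.swap 0 1 * (Equiv.swap 2 4 * Equiv.swap 2 3) : Equiv.Perm (Fin 5)),
      Equiv.swap 0 2 * Equiv.swap 1 3] v = σ
  revert σ
  decide +kernel

theorem not_surj (F : Type) [Field F] [Finite F] (n : ℕ) (hn : ¬ 3 ∣ n) (hc : Nat.card F = 2 ^ n) :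
    ¬ Function.Surjective (fun p : Matrix.ProjectiveSpecialLinearGroup (Fin 2) F ×
        Matrix.ProjectiveSpecialLinearGroup (Fin 2) F => FreeGroup.lift ![p.1, p.2] w) := by
  intro hs
  have h2 : (2 : F) = 0 := by
    let _ := Fintype.ofFinite F
    have h := FiniteField.cast_card_eq_zero F
    rw [← Nat.card_eq_fintype_card, hc] at h
    push_cast at h
    exact pow_eq_zero_iff (by rintro rfl; simp at hn) |>.1 h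
  let m : Matrix.SpecialLinearGroup (Fin 2) F :=
    ⟨!![0, 1; 1, 1], by rw [det_fin_two_of]; linear_combination -h2⟩
  obtain ⟨⟨p, q⟩, h⟩ := hs (QuotientGroup.mk m)
  obtain ⟨a, rfl⟩ := QuotientGroup.mk_surjective p
  obtain ⟨b, rfl⟩ := QuotientGroup.mk_surjective q
  simp only [lift_w] at h
  simp only [← QuotientGroup.mk_inv, ← QuotientGroup.mk_mul] at h
  rw [QuotientGroup.eq] at h
  obtain ⟨r, hr, hr'⟩ := Matrix.SpecialLinearGroup.mem_center_iff.1 h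
  have hr1 : r = 1 := by
    have : (r - 1) ^ 2 = 0 := by
      rw [Fintype.card_fin] at hr
      linear_combination hr + (1 - r) * h2
    exact sub_eq_zero.1 (pow_eq_zero_iff (by norm_num) |>.1 this)
  have hm : a * a * a * a * a * a * (b * a⁻¹ * b⁻¹) * (b * a⁻¹ * b⁻¹) * a * a * (b * a⁻¹ * b⁻¹)
        * (b * a⁻¹ * b⁻¹) * (b * a⁻¹ * b⁻¹) * a * (b * a⁻¹ * b⁻¹) = m := by
    apply inv_mul_eq_one.1
    apply Subtype.ext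
    rw [← hr', hr1]
    simp
  have ht : (b * a⁻¹ * b⁻¹ : Matrix.SpecialLinearGroup (Fin 2) F).1.trace = a.1.trace := by
    rw [Matrix.SpecialLinearGroup.coe_mul, trace_mul_comm, ← Matrix.SpecialLinearGroup.coe_mul,
      ← mul_assoc, inv_mul_cancel, one_mul, Matrix.SpecialLinearGroup.coe_inv, adjugate_fin_two]
    simp [trace_fin_two, add_comm]
  obtain ⟨g, hg⟩ := trace_word h2 a.1 (b * a⁻¹ * b⁻¹ : Matrix.SpecialLinearGroup (Fin 2) F).1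
    a.2 (b * a⁻¹ * b⁻¹ : Matrix.SpecialLinearGroup (Fin 2) F).2 ht
  simp only [← Matrix.SpecialLinearGroup.coe_mul] at hg
  rw [hm] at hg
  apply no_root n hn hc h2 g
  rw [← hg]
  simp [m, trace_fin_two]

/-- There is a word of odd length in the free group of rank two that is not a proper power and
whose word map is not surjective on PSL(2, F) for every finite field F of order 2 ^ n with n not
divisible by 3, hence for infinitely many field orders q. -/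
theorem result : ∃ w : FreeGroup (Fin 2), Odd (FreeGroup.norm w) ∧
    (¬ ∃ (v : FreeGroup (Fin 2)) (k : ℕ), 2 ≤ k ∧ w = v ^ k) ∧
    (∀ (F : Type) [Field F] [Finite F] (n : ℕ), ¬ 3 ∣ n → Nat.card F = 2 ^ n →
      ¬ Function.Surjective (fun p : Matrix.ProjectiveSpecialLinearGroup (Fin 2) F ×
        Matrix.ProjectiveSpecialLinearGroup (Fin 2) F => FreeGroup.lift ![p.1, p.2] w)) ∧
    Set.Infinite {q : ℕ | ∃ (F : Type) (_ : Field F) (_ : Finite F), Nat.card F = q ∧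
      ¬ Function.Surjective (fun p : Matrix.ProjectiveSpecialLinearGroup (Fin 2) F ×
        Matrix.ProjectiveSpecialLinearGroup (Fin 2) F => FreeGroup.lift ![p.1, p.2] w)} := by
  refine ⟨w, by rw [norm_w]; decide, not_pow, fun F _ _ n => not_surj F n, ?_⟩
  apply Set.infinite_of_injective_forall_mem (f := fun k : ℕ => 2 ^ (3 * k + 1))
  · intro a b hab
    have := Nat.pow_right_injective (le_refl 2) hab
    omega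
  · intro k
    have hc : Nat.card (GaloisField 2 (3 * k + 1)) = 2 ^ (3 * k + 1) :=
      GaloisField.card 2 (3 * k + 1) (by omega)
    exact ⟨GaloisField 2 (3 * k + 1), inferInstance, inferInstance, hc,
      not_surj _ (3 * k + 1) (by omega) hc⟩

end Pool.Agent.Results.MP_215b2d_al.OddWord
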